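import Pool.Agent.H36.ENR.Stmts2

/-!
# Row GP1 of the board enr: `Good p (PSL(2, p ^ f))`
-/

set_option autoImplicit false

namespace Pool.ENR

open Pool.Agent.H81.ENG Pool.Agent.H55.NEU

namespace GP1aux

theorem uu_npow {F : Type} [Field F] (t : F) (n : ℕ) : (uu t) ^ n = uu ((n : F) * t) := by
  induction n with
  | zero => rw [pow_zero, Nat.cast_zero, zero_mul, uu_zero]
  | succ n ih =>
    rw [pow_succ, ih, uu_mul]
    congr 1
    push_cast
    ring

theorem cpow {G : Type} [Group G] (E s : G) (n : ℕ) : (E * s * E⁻¹) ^ n = E * s ^ n * E⁻¹ :=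
  conj_pow

end GP1aux

open GP1aux in
theorem gp1_thm (h1 : FUUStmt) (h2 : NFMStmt) (h3 : POWStmt) (h4 : SE3Stmt) (h5 : SE4Stmt)
    (h6 : UTYStmt) (h7 : SCJStmt) (h8 : WCJStmt) : GP1Stmt := by
  intro F _ _ p f hp _ hf hq h4q σ N m hσN hσm
  have hpp : p.Prime := hp.out
  obtain ⟨h, hh⟩ := h1 F p p f N σ hpp hf hq (not_dvd_card_sylow p (PS F)) hσN
  have hσ1N : (MulAut.conj h * σ * (MulAut.conj h)⁻¹) ^ (p ^ N) = 1 := by
    rw [cpow, hσN, mul_one, mul_inv_cancel]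
  have hUU : ∀ x : F, (MulAut.conj h * σ * (MulAut.conj h)⁻¹) (pr (uu x)) ∈ UU F := fun x =>
    (hh _).1 (mem_UU.2 ⟨x, rfl⟩)
  set σ₁ : MulAut (PS F) := MulAut.conj h * σ * (MulAut.conj h)⁻¹ with hσ₁
  have hφN : (fld σ₁) ^ (p ^ N) = 1 := by rw [← map_pow, hσ1N, map_one]
  obtain ⟨j, -, hj⟩ := (Nat.dvd_prime_pow hpp).1 (orderOf_dvd_of_pow_eq_one hφN)
  obtain ⟨e, b, heb⟩ := h2 F p N j σ₁ hσ1N hUU hj
  set φ : F ≃+* F := fld σ₁ with hφ
  set σ₂ : MulAut (PS F) := MulAut.conj (pr (uu b)) * ee 1 φ with hσ₂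
  have hE : (e * MulAut.conj h) * σ * (e * MulAut.conj h)⁻¹ = σ₂ := by
    rw [← heb, hσ₁]
    group
  have hσ2m : σ₂ ^ (p ^ m) ≠ 1 := by
    intro h9
    rw [← hE, cpow, mul_inv_eq_one, mul_eq_left] at h9
    exact hσm h9
  have hφj : φ ^ (p ^ j) = 1 := by rw [← hj]; exact pow_orderOf_eq_one φ
  by_cases hm : φ ^ (p ^ m) = 1
  · have hjm : j ≤ m := by
      have h9 : p ^ j ∣ p ^ m := by rw [← hj]; exact orderOf_dvd_of_pow_eq_one hm
      exact (Nat.pow_dvd_pow_iff_le_right hpp.one_lt).1 h9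
    have hpow : σ₂ ^ (p ^ j) =
        MulAut.conj (pr (uu (∑ l ∈ Finset.range (p ^ j), (φ ^ l) b))) := by
      rw [hσ₂, h3 F φ b (p ^ j), hφj, ee_one_one, mul_one]
    have hjm' : j = m := by
      by_contra hne
      have hlt : j + 1 ≤ m := by omega
      apply hσ2m
      have h10 : σ₂ ^ (p ^ (j + 1)) = 1 := by
        rw [pow_succ, pow_mul, hpow, ← map_pow, ← map_pow, uu_npow, CharP.cast_eq_zero, zero_mul,
          uu_zero, map_one, map_one]
      obtain ⟨c, hc⟩ := pow_dvd_pow p hlt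
      rw [hc, pow_mul, h10, one_pow]
    subst hjm'
    have ht : ∑ l ∈ Finset.range (p ^ j), (φ ^ l) b ≠ 0 := by
      intro h9
      apply hσ2m
      rw [hpow, h9, uu_zero, map_one, map_one]
    by_cases hp2 : p = 2
    · subst hp2
      left
      apply h7 (PS F) 2 j σ (e * MulAut.conj h)
      rw [hE]
      exact h5 F j φ b hj ht
    · right
      right
      intro b'
      apply h8 (PS F) p b' j σ (e * MulAut.conj h)
      rw [hE]
      exact h6 F p b' j φ b hp2 h4q hj ht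
  · left
    apply h7 (PS F) p m σ (e * MulAut.conj h)
    rw [hE]
    exact h4 F p f m φ b hf hq hm

end Pool.ENR
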