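import Pool.Agent.H29.ENR.Stmts3

/-!
# Row MO1 of the board enr: the minimal polynomial is irreducible
-/

set_option autoImplicit false

namespace Pool.ENR

open Polynomial

namespace MO1aux

theorem comm {p : ℕ} {W : Type} [AddCommGroup W] [Module (ZMod p) W]
    (α : Module.End (ZMod p) W) (f : (ZMod p)[X]) (x : W) :
    (aeval α f) (α x) = α ((aeval α f) x) := by
  have h : aeval α (f * X) = aeval α (X * f) := by rw [mul_comm]
  rw [map_mul, map_mul, aeval_X] at h
  exact LinearMap.congr_fun h x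

theorem mem_ker {p : ℕ} [Fact p.Prime] {W : Type} [AddCommGroup W] [Module (ZMod p) W]
    (α : Module.End (ZMod p) W) (w : W)
    (hU : ∀ U : Submodule (ZMod p) W, U ≠ ⊥ → (∀ x ∈ U, α x ∈ U) → w ∈ U)
    (g₁ g₂ : (ZMod p)[X]) (h0 : minpoly (ZMod p) α ≠ 0) (hg : minpoly (ZMod p) α = g₁ * g₂)
    (h2 : ¬ IsUnit g₁) : (aeval α g₁) w = 0 := by
  have hne : LinearMap.ker (aeval α g₁) ≠ ⊥ := by
    intro hb
    have hinj : Function.Injective (aeval α g₁) := LinearMap.ker_eq_bot.1 hb
    have hz : aeval α g₂ = 0 := by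
      apply LinearMap.ext
      intro x
      apply hinj
      have h3 : aeval α (g₁ * g₂) = 0 := by rw [← hg]; exact minpoly.aeval _ _
      rw [map_mul] at h3
      have h4 := LinearMap.congr_fun h3 x
      rw [Module.End.mul_apply] at h4
      rw [h4, LinearMap.zero_apply]
      exact (map_zero _).symm
    have hd : minpoly (ZMod p) α ∣ g₂ := minpoly.dvd _ _ hz
    have hg2 : g₂ ≠ 0 := by
      intro h
      rw [h, mul_zero] at hg
      exact h0 hg
    rw [hg] at hd
    obtain ⟨c, hc⟩ := hd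
    apply h2
    have h5 : g₂ * (g₁ * c) = g₂ * 1 := by
      rw [mul_one]
      calc g₂ * (g₁ * c) = g₁ * g₂ * c := by ring
        _ = g₂ := hc.symm
    exact IsUnit.of_mul_eq_one c (mul_left_cancel₀ hg2 h5)
  have hm := hU _ hne (fun x hx => by
    rw [LinearMap.mem_ker] at hx ⊢
    rw [comm, hx, map_zero])
  exact LinearMap.mem_ker.1 hm

end MO1aux

open MO1aux in
theorem mo1_thm : MO1Stmt := by
  intro p _ W _ _ _ α m w hpm hα hw hU
  have hm : 0 < m := by
    rcases Nat.eq_zero_or_pos m with h | h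
    · exact absurd (h ▸ dvd_zero p) hpm
    · exact h
  have hmz : (m : ZMod p) ≠ 0 := by
    intro h
    exact hpm ((ZMod.natCast_eq_zero_iff m p).1 h)
  have hsep : (X ^ m - 1 : (ZMod p)[X]).Separable := X_pow_sub_one_separable_iff.2 hmz
  have hdvd : minpoly (ZMod p) α ∣ X ^ m - 1 := by
    apply minpoly.dvd
    rw [map_sub, map_pow, aeval_X, hα, map_one, sub_self]
  have hsepg : (minpoly (ZMod p) α).Separable := hsep.of_dvd hdvd
  have h0 : minpoly (ZMod p) α ≠ 0 := by
    intro h
    rw [h, zero_dvd_iff] at hdvd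
    exact X_pow_sub_C_ne_zero hm (1 : ZMod p) (by rw [map_one]; exact hdvd)
  haveI : Nontrivial W := ⟨w, 0, hw⟩
  refine irreducible_iff.2 ⟨minpoly.not_isUnit _ _, ?_⟩
  intro g₁ g₂ hg
  by_contra hc
  rw [not_or] at hc
  have hcop : IsCoprime g₁ g₂ := by
    rw [hg] at hsepg
    exact hsepg.isCoprime
  obtain ⟨a, b, hab⟩ := hcop
  have h1 := mem_ker α w hU g₁ g₂ h0 hg hc.1
  have h2 := mem_ker α w hU g₂ g₁ h0 (by rw [hg, mul_comm]) hc.2
  have h3 : (aeval α (a * g₁ + b * g₂)) w = w := by rw [hab, map_one]; rfl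
  rw [map_add, map_mul, map_mul, LinearMap.add_apply, Module.End.mul_apply, Module.End.mul_apply,
    h1, h2, map_zero, map_zero, add_zero] at h3
  exact hw h3.symm

end Pool.ENR
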